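import Mathlib

set_option autoImplicit false

namespace Red76

open SimpleGraph

/-- `K` is a minor of `G`: a model by connected, pairwise disjoint branch sets. -/
def IsMinor {V W : Type} (K : SimpleGraph W) (G : SimpleGraph V) : Prop :=
  ∃ B : W → Set V, (∀ w, (G.induce (B w)).Connected) ∧
    (∀ w w', w ≠ w' → Disjoint (B w) (B w')) ∧
    ∀ w w', K.Adj w w' → ∃ x ∈ B w, ∃ y ∈ B w', G.Adj x y

/-- `p`-path degenerate graphs: a graph without vertices is `p`-path degenerate, and so is a graph
`G` that arises from a `p`-path degenerate graph (the induced subgraph of `G` on the old vertices)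
by adding one isolated vertex `v`, or one vertex `v` joined by exactly one edge to an old vertex, or
a path `w` of length `p` whose end points `a ≠ b` are old and whose internal vertices are new (so
each internal vertex has exactly two neighbours in `G`). -/
inductive PathDeg (p : ℕ) : ∀ {V : Type}, SimpleGraph V → Prop
  | empty {V : Type} (G : SimpleGraph V) : IsEmpty V → PathDeg p G
  | isolated {V : Type} (G : SimpleGraph V) (v : V) : (∀ y, ¬ G.Adj v y) →
      PathDeg p (G.induce {x | x ≠ v}) → PathDeg p G
  | pendant {V : Type} (G : SimpleGraph V) (v : V) : (∃! y, G.Adj v y) →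
      PathDeg p (G.induce {x | x ≠ v}) → PathDeg p G
  | path {V : Type} (G : SimpleGraph V) (a b : V) (w : G.Walk a b) : a ≠ b → w.IsPath →
      w.length = p → (∀ x ∈ w.support, x ≠ a → x ≠ b → Nat.card (G.neighborSet x) = 2) →
      PathDeg p (G.induce {x | x ∈ w.support → x = a ∨ x = b}) → PathDeg p G

/-- A class of finite graphs closed under minors. -/
def MinorClosed (C : ∀ (V : Type) [Finite V], SimpleGraph V → Prop) : Prop :=
  ∀ (V W : Type) [Finite V] [Finite W] (G : SimpleGraph V) (K : SimpleGraph W),
    C V G → IsMinor K G → C W K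

/-- The maximum average degree of the class is at most `d`: `2|E(H)| ≤ d|V(H)|` for every non-empty
subgraph `H` of every member `G`. -/
def MadLE (C : ∀ (V : Type) [Finite V], SimpleGraph V → Prop) (d : ℝ) : Prop :=
  ∀ (V : Type) [Finite V] (G : SimpleGraph V), C V G → ∀ H : G.Subgraph, H.verts.Nonempty →
    2 * (H.edgeSet.ncard : ℝ) ≤ d * (H.verts.ncard : ℝ)

end Red76
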