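import Mathlib
import Pool.Agent.H76.Defs76

set_option autoImplicit false

namespace Red76

open SimpleGraph

universe u

section walks

variable {V : Type}

/-- weighted length of a walk -/
def wt {G : SimpleGraph V} (l : V → V → ℕ) : ∀ {a b : V}, G.Walk a b → ℕ
  | _, _, .nil => 0
  | a, _, .cons (v := c) _ p => l a c + wt l p

@[simp] lemma wt_nil {G : SimpleGraph V} (l : V → V → ℕ) (a : V) :
    wt l (Walk.nil : G.Walk a a) = 0 := rfl

@[simp] lemma wt_cons {G : SimpleGraph V} (l : V → V → ℕ) {a b c : V} (h : G.Adj a c)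
    (p : G.Walk c b) : wt l (Walk.cons h p) = l a c + wt l p := rfl

lemma wt_append {G : SimpleGraph V} (l : V → V → ℕ) {a b c : V} (p : G.Walk a b)
    (q : G.Walk b c) : wt l (p.append q) = wt l p + wt l q := by
  induction p with
  | nil => simp
  | cons h p ih => simp [ih, Nat.add_assoc]

lemma wt_one {G : SimpleGraph V} {a b : V} (p : G.Walk a b) :
    wt (fun _ _ => 1) p = p.length := by
  induction p with
  | nil => simp
  | cons h p ih => simp [ih, Nat.add_comm]

lemma wt_le {G : SimpleGraph V} (l : V → V → ℕ) (q : ℕ) (hl : ∀ a b, G.Adj a b → l a b ≤ q)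
    {a b : V} (p : G.Walk a b) : wt l p ≤ p.length * q := by
  induction p with
  | nil => simp
  | cons h p ih =>
    simp only [wt_cons, Walk.length_cons]
    have := hl _ _ h
    nlinarith

end walks

/-- degree, classically -/
noncomputable def dg {V : Type} [Finite V] (G : SimpleGraph V) (x : V) : ℕ :=
  Nat.card (G.neighborSet x)

section step

variable {V : Type} (G : SimpleGraph V) (v a b : V)

/-- suppress the vertex `v` of degree two with neighbours `a`, `b` -/
def supp (hab : a ≠ b) : SimpleGraph {x : V // x ≠ v} where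
  Adj x y := G.Adj x.1 y.1 ∨ (x.1 = a ∧ y.1 = b) ∨ (x.1 = b ∧ y.1 = a)
  symm := by
    constructor
    intro x y h
    rcases h with h | h | h
    · exact Or.inl h.symm
    · exact Or.inr (Or.inr ⟨h.2, h.1⟩)
    · exact Or.inr (Or.inl ⟨h.2, h.1⟩)
  loopless := by
    constructor
    intro x h
    rcases h with h | h | h
    · exact G.loopless.irrefl _ h
    · exact hab (h.1.symm.trans h.2)
    · exact hab (h.2.symm.trans h.1)

open Classical in
/-- new weights -/
noncomputable def lw (l : V → V → ℕ) (x y : {x : V // x ≠ v}) : ℕ :=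
  if (x.1 = a ∧ y.1 = b) ∨ (x.1 = b ∧ y.1 = a) then l a v + l v b else l x.1 y.1

end step


section expand

variable {V : Type} {G : SimpleGraph V} {v a b : V}

lemma expand (hab : a ≠ b) (hva : G.Adj v a) (hvb : G.Adj v b) (hn : ¬ G.Adj a b)
    (l : V → V → ℕ) (hl : ∀ x y, l x y = l y x) {x y : {x : V // x ≠ v}}
    (p : (supp G v a b hab).Walk x y) :
    ∃ q : G.Walk x.1 y.1, wt l q = wt (lw v a b l) p ∧
      (∀ x' y' : {x : V // x ≠ v}, s(x'.1, y'.1) ∈ q.edges → s(x', y') ∈ p.edges) ∧
      (s((⟨a, hva.ne'⟩ : {x : V // x ≠ v}), (⟨b, hvb.ne'⟩ : {x : V // x ≠ v})) ∉ p.edges →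
        v ∉ q.support) ∧
      (∀ z ∈ q.support, z = v ∨ ∃ z' ∈ p.support, z'.1 = z) ∧
      (p.IsPath → q.IsPath) := by
  induction p with
  | @nil u =>
    refine ⟨Walk.nil, rfl, ?_, ?_, ?_, ?_⟩
    · intro x' y' h
      simp at h
    · intro _ h
      simp at h
      exact u.2 h.symm
    · intro z hz
      simp at hz
      exact Or.inr ⟨u, by simp, hz.symm⟩
    · intro _
      exact Walk.IsPath.nil
  | @cons u z w h p ih =>
    obtain ⟨q, hw, hA, hB, hS, hP⟩ := ih
    by_cases hG : G.Adj u.1 z.1
    · refine ⟨Walk.cons hG q, ?_, ?_, ?_, ?_, ?_⟩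
      · have hne : ¬ ((u.1 = a ∧ z.1 = b) ∨ (u.1 = b ∧ z.1 = a)) := by
          rintro (h' | h')
          · rw [h'.1, h'.2] at hG; exact hn hG
          · rw [h'.1, h'.2] at hG; exact hn hG.symm
        simp [wt_cons, hw, lw, hne]
      · intro x' y' hx
        rw [Walk.edges_cons, List.mem_cons] at hx ⊢
        rcases hx with hx | hx
        · left
          rw [Sym2.eq_iff] at hx ⊢
          rcases hx with hx | hx
          · exact Or.inl ⟨Subtype.ext hx.1, Subtype.ext hx.2⟩
          · exact Or.inr ⟨Subtype.ext hx.1, Subtype.ext hx.2⟩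
        · exact Or.inr (hA _ _ hx)
      · intro hx
        rw [Walk.edges_cons, List.mem_cons, not_or] at hx
        rw [Walk.support_cons, List.mem_cons, not_or]
        exact ⟨fun h' => u.2 h'.symm, hB hx.2⟩
      · intro z' hz'
        rw [Walk.support_cons, List.mem_cons] at hz'
        rcases hz' with hz' | hz'
        · exact Or.inr ⟨u, by simp, hz'.symm⟩
        · rcases hS _ hz' with h' | ⟨z'', h1, h2⟩
          · exact Or.inl h'
          · exact Or.inr ⟨z'', by simp [h1], h2⟩
      · intro hp
        rw [Walk.cons_isPath_iff] at hp ⊢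
        refine ⟨hP hp.1, ?_⟩
        intro hu
        rcases hS _ hu with h' | ⟨z'', h1, h2⟩
        · exact u.2 h'
        · have : z'' = u := Subtype.ext h2
          exact hp.2 (this ▸ h1)
    · have h2 : (u.1 = a ∧ z.1 = b) ∨ (u.1 = b ∧ z.1 = a) := by
        rcases h with h | h
        · exact absurd h hG
        · exact h
      have huv : G.Adj u.1 v := by
        rcases h2 with h' | h'
        · rw [h'.1]; exact hva.symm
        · rw [h'.1]; exact hvb.symm
      have hvz : G.Adj v z.1 := by
        rcases h2 with h' | h'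
        · rw [h'.2]; exact hvb
        · rw [h'.2]; exact hva
      have hedge : s((⟨a, hva.ne'⟩ : {x : V // x ≠ v}), (⟨b, hvb.ne'⟩ : {x : V // x ≠ v})) =
          s(u, z) := by
        rw [Sym2.eq_iff]
        rcases h2 with h' | h'
        · exact Or.inl ⟨Subtype.ext h'.1.symm, Subtype.ext h'.2.symm⟩
        · exact Or.inr ⟨Subtype.ext h'.2.symm, Subtype.ext h'.1.symm⟩
      refine ⟨Walk.cons huv (Walk.cons hvz q), ?_, ?_, ?_, ?_, ?_⟩
      · have e1 : lw v a b l u z = l a v + l v b := by
          simp only [lw]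
          rw [if_pos h2]
        rw [wt_cons, wt_cons, wt_cons, hw, e1]
        rcases h2 with h' | h'
        · rw [h'.1, h'.2]; ring
        · rw [h'.1, h'.2, hl b v, hl v a]; ring
      · intro x' y' hx
        rw [Walk.edges_cons, Walk.edges_cons, List.mem_cons, List.mem_cons] at hx
        rcases hx with hx | hx | hx
        · rw [Sym2.eq_iff] at hx
          rcases hx with hx | hx
          · exact absurd hx.2 y'.2
          · exact absurd hx.1 x'.2
        · rw [Sym2.eq_iff] at hx
          rcases hx with hx | hx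
          · exact absurd hx.1 x'.2
          · exact absurd hx.2 y'.2
        · rw [Walk.edges_cons, List.mem_cons]
          exact Or.inr (hA _ _ hx)
      · intro hx
        rw [Walk.edges_cons, List.mem_cons, not_or] at hx
        exact absurd hedge hx.1
      · intro z' hz'
        rw [Walk.support_cons, Walk.support_cons, List.mem_cons, List.mem_cons] at hz'
        rcases hz' with hz' | hz' | hz'
        · exact Or.inr ⟨u, by simp, hz'.symm⟩
        · exact Or.inl hz'
        · rcases hS _ hz' with h' | ⟨z'', h1, h2⟩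
          · exact Or.inl h'
          · exact Or.inr ⟨z'', by simp [h1], h2⟩
      · intro hp
        rw [Walk.cons_isPath_iff] at hp
        have hnot : s(u, z) ∉ p.edges := by
          intro h'
          exact hp.2 (Walk.fst_mem_support_of_mem_edges p h')
        have hvq : v ∉ q.support := hB (by rw [hedge]; exact hnot)
        rw [Walk.cons_isPath_iff, Walk.cons_isPath_iff]
        refine ⟨⟨hP hp.1, hvq⟩, ?_⟩
        rw [Walk.support_cons, List.mem_cons, not_or]
        refine ⟨u.2, ?_⟩
        intro hu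
        rcases hS _ hu with h' | ⟨z'', h1, h2⟩
        · exact u.2 h'
        · have : z'' = u := Subtype.ext h2
          exact hp.2 (this ▸ h1)

end expand


section stepLemma

lemma dg_le {V : Type} [Finite V] {G : SimpleGraph V} {v a b : V} (hab : a ≠ b)
    (hva : G.Adj v a) (hvb : G.Adj v b) (honly : ∀ y, G.Adj v y → y = a ∨ y = b)
    (hn : ¬ G.Adj a b) (x : {x : V // x ≠ v}) :
    dg G x.1 ≤ dg (supp G v a b hab) x := by
  classical
  unfold dg
  have key : ∀ y : G.neighborSet x.1, y.1 = v →
      (supp G v a b hab).Adj x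
        (if x.1 = a then ⟨b, hvb.ne'⟩ else ⟨a, hva.ne'⟩) := by
    intro y hy
    have hxv : G.Adj v x.1 := by
      have := y.2
      rw [mem_neighborSet, hy] at this
      exact this.symm
    by_cases hxa : x.1 = a
    · rw [if_pos hxa]
      exact Or.inr (Or.inl ⟨hxa, rfl⟩)
    · rw [if_neg hxa]
      rcases honly _ hxv with h | h
      · exact absurd h hxa
      · exact Or.inr (Or.inr ⟨h, rfl⟩)
  let f : G.neighborSet x.1 → (supp G v a b hab).neighborSet x := fun y =>
    if h : y.1 = v then ⟨(if x.1 = a then ⟨b, hvb.ne'⟩ else ⟨a, hva.ne'⟩), key y h⟩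
    else ⟨⟨y.1, h⟩, Or.inl y.2⟩
  have hmix : ∀ y1 y2 : G.neighborSet x.1, y1.1 = v → y2.1 ≠ v → f y1 ≠ f y2 := by
    intro y1 y2 h1 h2 he
    have he0 := congrArg Subtype.val he
    simp only [f, h1, h2, dif_pos, dif_neg, not_false_eq_true] at he0
    have hy2 := y2.2
    rw [mem_neighborSet] at hy2
    by_cases hxa : x.1 = a
    · rw [if_pos hxa] at he0
      have : b = y2.1 := congrArg Subtype.val he0
      rw [← this, hxa] at hy2
      exact hn hy2
    · rw [if_neg hxa] at he0
      have : a = y2.1 := congrArg Subtype.val he0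
      have hxv : G.Adj v x.1 := by
        have := y1.2
        rw [mem_neighborSet, h1] at this
        exact this.symm
      rcases honly _ hxv with h | h
      · exact hxa h
      · rw [← this, h] at hy2
        exact hn hy2.symm
  refine Nat.card_le_card_of_injective f ?_
  intro y1 y2 he
  by_cases h1 : y1.1 = v
  · by_cases h2 : y2.1 = v
    · exact Subtype.ext (h1.trans h2.symm)
    · exact absurd he (hmix _ _ h1 h2)
  · by_cases h2 : y2.1 = v
    · exact absurd he.symm (hmix _ _ h2 h1)
    · have he0 := congrArg Subtype.val he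
      simp only [f, h1, h2, dif_neg, not_false_eq_true] at he0
      have h3 : y1.1 = y2.1 := congrArg (fun z : {x : V // x ≠ v} => z.1) he0
      exact Subtype.ext h3

lemma supp_minor {V : Type} {G : SimpleGraph V} {v a b : V} (hab : a ≠ b)
    (hva : G.Adj v a) (hvb : G.Adj v b) : IsMinor (supp G v a b hab) G := by
  classical
  refine ⟨fun x => if x.1 = a then {a, v} else {x.1}, ?_, ?_, ?_⟩
  · intro x
    by_cases hx : x.1 = a
    · have e : (if x.1 = a then ({a, v} : Set V) else {x.1}) = {a, v} := if_pos hx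
      show (G.induce (if x.1 = a then ({a, v} : Set V) else {x.1})).Connected
      rw [e]
      exact induce_pair_connected_of_adj hva.symm
    · have e : (if x.1 = a then ({a, v} : Set V) else {x.1}) = {x.1} := if_neg hx
      show (G.induce (if x.1 = a then ({a, v} : Set V) else {x.1})).Connected
      rw [e]
      have : Subsingleton (({x.1} : Set V) : Type) := by
        constructor
        rintro ⟨p, hp⟩ ⟨q, hq⟩
        rw [Set.mem_singleton_iff] at hp hq
        exact Subtype.ext (hp.trans hq.symm)
      have : Nonempty (({x.1} : Set V) : Type) := ⟨⟨x.1, rfl⟩⟩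
      exact Connected.mk (Preconnected.of_subsingleton)
  · intro x y hxy
    rw [Set.disjoint_left]
    intro z hz1 hz2
    have hx : z = x.1 ∨ (x.1 = a ∧ z = v) := by
      by_cases h : x.1 = a
      · simp only [h, if_true] at hz1
        rcases hz1 with h' | h'
        · exact Or.inl (h'.trans h.symm)
        · exact Or.inr ⟨h, h'⟩
      · simp only [h, if_false] at hz1
        exact Or.inl hz1
    have hy : z = y.1 ∨ (y.1 = a ∧ z = v) := by
      by_cases h : y.1 = a
      · simp only [h, if_true] at hz2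
        rcases hz2 with h' | h'
        · exact Or.inl (h'.trans h.symm)
        · exact Or.inr ⟨h, h'⟩
      · simp only [h, if_false] at hz2
        exact Or.inl hz2
    rcases hx with hx | hx
    · rcases hy with hy | hy
      · exact hxy (Subtype.ext (hx.symm.trans hy))
      · exact x.2 (hx.symm.trans hy.2)
    · rcases hy with hy | hy
      · exact y.2 (hy.symm.trans hx.2)
      · exact hxy (Subtype.ext (hx.1.trans hy.1.symm))
  · intro x y h
    have hself : ∀ x : {x : V // x ≠ v}, x.1 ∈ (if x.1 = a then ({a, v} : Set V) else {x.1}) := by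
      intro x
      by_cases hx : x.1 = a
      · rw [if_pos hx]; exact Or.inl hx
      · rw [if_neg hx]; exact rfl
    have hv : ∀ x : {x : V // x ≠ v}, x.1 = a →
        v ∈ (if x.1 = a then ({a, v} : Set V) else {x.1}) := by
      intro x hx
      rw [if_pos hx]
      exact Or.inr rfl
    rcases h with h | h | h
    · exact ⟨x.1, hself x, y.1, hself y, h⟩
    · exact ⟨v, hv x h.1, y.1, hself y, h.2 ▸ hvb⟩
    · exact ⟨x.1, hself x, v, hv y h.2, h.1 ▸ hvb.symm⟩

structure Inv {V : Type} [Finite V] (G : SimpleGraph V) (l : V → V → ℕ) (g q : ℕ) : Prop where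
  sym : ∀ x y, l x y = l y x
  deg : ∀ x, 2 ≤ dg G x
  thr : ∀ (a b : V) (w : G.Walk a b), w.IsPath →
    (∀ x ∈ w.support, x ≠ a → x ≠ b → dg G x = 2) → wt l w ≤ q
  cyc : ∀ (a b : V), G.Adj a b → ∀ w : G.Walk a b, s(a, b) ∉ w.edges → g ≤ wt l w + l a b

lemma Inv.le_q {V : Type} [Finite V] {G : SimpleGraph V} {l : V → V → ℕ} {g q : ℕ}
    (h : Inv G l g q) {a b : V} (hab : G.Adj a b) : l a b ≤ q := by
  have h1 := h.thr a b (Walk.cons hab Walk.nil) (by simp [hab.ne]) (by
    intro x hx h1 h2
    simp at hx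
    rcases hx with hx | hx
    · exact absurd hx h1
    · exact absurd hx h2)
  simpa using h1

lemma Inv.step {V : Type} [Finite V] {G : SimpleGraph V} {l : V → V → ℕ} {g q : ℕ}
    (h : Inv G l g q) (hg : 3 * q < g) (v : V) (hv : dg G v = 2) :
    ∃ (a b : V) (hab : a ≠ b), Inv (supp G v a b hab) (lw v a b l) g q ∧
      IsMinor (supp G v a b hab) G := by
  classical
  unfold dg at hv
  rw [Nat.card_eq_two_iff] at hv
  obtain ⟨⟨a, ha⟩, ⟨b, hb⟩, hne, huniv⟩ := hv
  have hab : a ≠ b := fun e => hne (Subtype.ext e)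
  have hva : G.Adj v a := ha
  have hvb : G.Adj v b := hb
  have honly : ∀ y, G.Adj v y → y = a ∨ y = b := by
    intro y hy
    have : (⟨y, hy⟩ : G.neighborSet v) ∈ (Set.univ : Set (G.neighborSet v)) := trivial
    rw [← huniv] at this
    rcases this with h' | h'
    · exact Or.inl (congrArg Subtype.val h')
    · exact Or.inr (congrArg Subtype.val h')
  have hn : ¬ G.Adj a b := by
    intro hadj
    have h1 := h.cyc a b hadj (Walk.cons hva.symm (Walk.cons hvb Walk.nil)) (by
      simp only [Walk.edges_cons, Walk.edges_nil, List.mem_cons, List.not_mem_nil, or_false, not_or]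
      constructor
      · intro e
        rw [Sym2.eq_iff] at e
        rcases e with e | e
        · exact hvb.ne e.2.symm
        · exact hva.ne e.1.symm
      · intro e
        rw [Sym2.eq_iff] at e
        rcases e with e | e
        · exact hva.ne e.1.symm
        · exact hab e.1)
    simp only [wt_cons, wt_nil] at h1
    have e1 := h.le_q hadj
    have e2 := h.le_q hva.symm
    have e3 := h.le_q hvb
    omega
  refine ⟨a, b, hab, ?_, supp_minor hab hva hvb⟩
  refine ⟨?_, ?_, ?_, ?_⟩
  · intro x y
    simp only [lw]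
    have : ((x.1 = a ∧ y.1 = b) ∨ (x.1 = b ∧ y.1 = a)) ↔
        ((y.1 = a ∧ x.1 = b) ∨ (y.1 = b ∧ x.1 = a)) := by tauto
    by_cases hx : (x.1 = a ∧ y.1 = b) ∨ (x.1 = b ∧ y.1 = a)
    · rw [if_pos hx, if_pos (this.1 hx)]
    · rw [if_neg hx, if_neg (fun e => hx (this.2 e)), h.sym]
  · intro x
    exact (h.deg x.1).trans (dg_le hab hva hvb honly hn x)
  · intro c d w hw hdeg
    obtain ⟨p, hp1, hp2, hp3, hp4, hp5⟩ := expand hab hva hvb hn l h.sym w
    rw [← hp1]
    refine h.thr c.1 d.1 p (hp5 hw) ?_
    intro x hx hxc hxd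
    rcases hp4 x hx with hx' | ⟨x', hx'1, hx'2⟩
    · rw [hx']
      unfold dg
      rw [Nat.card_eq_two_iff]
      exact ⟨⟨a, ha⟩, ⟨b, hb⟩, hne, huniv⟩
    · have h1 := hdeg x' hx'1 (fun e => hxc (by rw [← hx'2, e])) (fun e => hxd (by rw [← hx'2, e]))
      have h2 := dg_le hab hva hvb honly hn x'
      have h3 := h.deg x
      rw [hx'2] at h2
      omega
  · intro c d hcd w hw
    obtain ⟨p, hp1, hp2, hp3, hp4, hp5⟩ := expand hab hva hvb hn l h.sym w
    rw [← hp1]
    by_cases hG : G.Adj c.1 d.1
    · have hne' : ¬ ((c.1 = a ∧ d.1 = b) ∨ (c.1 = b ∧ d.1 = a)) := by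
        rintro (h' | h')
        · rw [h'.1, h'.2] at hG; exact hn hG
        · rw [h'.1, h'.2] at hG; exact hn hG.symm
      have e1 : lw v a b l c d = l c.1 d.1 := by
        simp only [lw]
        rw [if_neg hne']
      rw [e1]
      refine h.cyc _ _ hG p ?_
      intro he
      exact hw (hp2 c d he)
    · have h2 : (c.1 = a ∧ d.1 = b) ∨ (c.1 = b ∧ d.1 = a) := by
        rcases hcd with h' | h'
        · exact absurd h' hG
        · exact h'
      have e1 : lw v a b l c d = l a v + l v b := by
        simp only [lw]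
        rw [if_pos h2]
      have hvd : G.Adj v d.1 := by
        rcases h2 with h' | h'
        · rw [h'.2]; exact hvb
        · rw [h'.2]; exact hva
      have hcv : G.Adj c.1 v := by
        rcases h2 with h' | h'
        · rw [h'.1]; exact hva.symm
        · rw [h'.1]; exact hvb.symm
      have hedge : s((⟨a, hva.ne'⟩ : {x : V // x ≠ v}), (⟨b, hvb.ne'⟩ : {x : V // x ≠ v})) =
          s(c, d) := by
        rw [Sym2.eq_iff]
        rcases h2 with h' | h'
        · exact Or.inl ⟨Subtype.ext h'.1.symm, Subtype.ext h'.2.symm⟩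
        · exact Or.inr ⟨Subtype.ext h'.2.symm, Subtype.ext h'.1.symm⟩
      have hvp : v ∉ p.support := hp3 (by rw [hedge]; exact hw)
      -- the walk  v - c ... d  together with the edge  v d
      have h4 := h.cyc v d.1 hvd (Walk.cons hcv.symm p) (by
        rw [Walk.edges_cons, List.mem_cons, not_or]
        constructor
        · intro e
          rw [Sym2.eq_iff] at e
          have hcd' : c.1 ≠ d.1 := by
            rcases h2 with h' | h'
            · rw [h'.1, h'.2]; exact hab
            · rw [h'.1, h'.2]; exact hab.symm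
          rcases e with e | e
          · exact hcd' e.2.symm
          · exact d.2 e.2
        · intro e
          exact hvp (Walk.fst_mem_support_of_mem_edges p e))
      rw [wt_cons] at h4
      have e5 : l v c.1 + l v d.1 = l a v + l v b := by
        rcases h2 with h' | h'
        · rw [h'.1, h'.2, h.sym v a]
        · rw [h'.1, h'.2, h.sym v a, Nat.add_comm]
      rw [e1]
      omega

end stepLemma


section final

/-- Iterated suppression of the vertices of degree two. -/
theorem reduce (C : ∀ {V : Type}, SimpleGraph V → Prop)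
    (hC : ∀ {V W : Type} (G : SimpleGraph V) (K : SimpleGraph W), C G → IsMinor K G → C K)
    (g q : ℕ) (hg : 3 * q < g) : ∀ (n : ℕ) (V : Type) [Finite V] (G : SimpleGraph V)
    (l : V → V → ℕ), Nat.card V = n → Nonempty V → C G → Inv G l g q →
    ∃ (W : Type) (_ : Finite W) (K : SimpleGraph W), Nonempty W ∧ C K ∧ (∀ w, 3 ≤ dg K w) ∧
      ∀ a b, K.Adj a b → ∀ w : K.Walk a b, s(a, b) ∉ w.edges → g ≤ (w.length + 1) * q := by
  intro n
  induction n using Nat.strong_induction_on with
  | _ n ih =>
    intro V _ G l hn hne hG hI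
    by_cases hv : ∃ v, dg G v = 2
    · obtain ⟨v, hv⟩ := hv
      obtain ⟨a, b, hab, hI', hm⟩ := hI.step hg v hv
      have hva : a ≠ v ∨ b ≠ v := by
        by_contra hcon
        push Not at hcon
        exact hab (hcon.1.trans hcon.2.symm)
      have hcard : Nat.card {x : V // x ≠ v} < n := by
        rw [← hn]
        classical
        have := Fintype.ofFinite V
        rw [Nat.card_eq_fintype_card, Nat.card_eq_fintype_card]
        exact Fintype.card_subtype_lt (p := fun x => x ≠ v) (x := v) (fun h => h rfl)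
      have hne' : Nonempty {x : V // x ≠ v} := by
        rcases hva with h | h
        · exact ⟨⟨a, h⟩⟩
        · exact ⟨⟨b, h⟩⟩
      exact ih _ hcard {x : V // x ≠ v} (supp G v a b hab) (lw v a b l) rfl hne'
        (hC _ _ hG hm) hI'
    · push Not at hv
      refine ⟨V, inferInstance, G, hne, hG, ?_, ?_⟩
      · intro w
        have h1 := hI.deg w
        have h2 := hv w
        omega
      · intro a b hab w hw
        have h1 := hI.cyc a b hab w hw
        have h2 := wt_le l q (fun a b h => hI.le_q h) w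
        have h3 := hI.le_q hab
        nlinarith

lemma inv_base {V : Type} [Finite V] (H : SimpleGraph V) (p g : ℕ) (hp : 1 ≤ p)
    (hdeg : ∀ x, 2 ≤ dg H x)
    (hear : ∀ (a b : V) (w : H.Walk a b), w.IsPath → w.length = p →
      ¬ ∀ x ∈ w.support, x ≠ a → x ≠ b → dg H x = 2)
    (hcyc : ∀ a b, H.Adj a b → ∀ w : H.Walk a b, s(a, b) ∉ w.edges → g ≤ w.length + 1) :
    Inv H (fun _ _ => 1) g (p - 1) := by
  refine ⟨fun _ _ => rfl, hdeg, ?_, ?_⟩
  · intro a b w hw hin
    rw [wt_one]
    by_contra hlt
    have hlen : p ≤ w.length := by omega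
    refine hear a (w.getVert p) (w.take p) (hw.take p) (by simp [hlen]) ?_
    intro x hx hxa hxp
    have hx' : x ∈ w.support := by
      have h0 := hx
      rw [Walk.support_take] at h0
      exact List.mem_of_mem_take h0
    refine hin x hx' hxa ?_
    intro hxb
    rw [Walk.mem_support_iff_exists_getVert] at hx
    obtain ⟨i, hi1, hi2⟩ := hx
    have hi3 : i ≤ p := by
      refine hi2.trans ?_
      simp [Walk.take_length]
    rw [Walk.take_getVert] at hi1
    have hi4 : min i p = i := by omega
    have hi5 : w.getVert i = x := by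
      rw [← hi1]
      congr 1
      omega
    have h6 : i = w.length := by
      refine hw.getVert_injOn (by simp; omega) (by simp) ?_
      rw [hi5, hxb, Walk.getVert_length]
    have h7 : i = p := by omega
    exact hxp (by rw [← hi5, h7])
  · intro a b hab w hw
    rw [wt_one]
    exact hcyc a b hab w hw

lemma cyc_of_girth {V : Type} (H : SimpleGraph V) (g : ℕ) (hg : (g : ℕ∞) ≤ H.egirth) (a b : V)
    (hab : H.Adj a b) (w : H.Walk a b) (hw : s(a, b) ∉ w.edges) : g ≤ w.length + 1 := by
  classical
  have hc : (Walk.cons hab.symm w.bypass).IsCycle := by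
    rw [Walk.cons_isCycle_iff]
    refine ⟨w.bypass_isPath, ?_⟩
    intro h
    rw [Sym2.eq_swap] at h
    exact hw (Walk.edges_bypass_subset w h)
  have h1 : H.egirth ≤ ((Walk.cons hab.symm w.bypass).length : ℕ∞) := egirth_le_length hc
  have h2 : (g : ℕ∞) ≤ ((w.bypass.length + 1 : ℕ) : ℕ∞) := by
    simpa using hg.trans h1
  have h3 : g ≤ w.bypass.length + 1 := by exact_mod_cast h2
  have h4 := w.length_bypass_le
  omega

lemma girth_of_cyc {V : Type} (K : SimpleGraph V) (g q : ℕ)
    (h : ∀ a b, K.Adj a b → ∀ w : K.Walk a b, s(a, b) ∉ w.edges → g ≤ (w.length + 1) * q)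
    {u : V} (c : K.Walk u u) (hc : c.IsCycle) : g ≤ c.length * q := by
  cases c with
  | nil => exact absurd hc Walk.IsCycle.not_of_nil
  | @cons _ v _ h' p =>
    rw [Walk.cons_isCycle_iff] at hc
    have := h v u h'.symm p (by rw [Sym2.eq_swap]; exact hc.2)
    simpa [Walk.length_cons] using this

lemma IsMinor.refl {V : Type} (G : SimpleGraph V) : IsMinor G G := by
  refine ⟨fun x => {x}, ?_, ?_, ?_⟩
  · intro x
    have : Subsingleton (({x} : Set V) : Type) := by
      constructor
      rintro ⟨p, hp⟩ ⟨q, hq⟩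
      rw [Set.mem_singleton_iff] at hp hq
      exact Subtype.ext (hp.trans hq.symm)
    have : Nonempty (({x} : Set V) : Type) := ⟨⟨x, rfl⟩⟩
    exact Connected.mk (Preconnected.of_subsingleton)
  · intro x y hxy
    simpa using hxy
  · intro x y h
    exact ⟨x, rfl, y, rfl, h⟩

lemma IsMinor.trans {U V W : Type} {M : SimpleGraph U} {K : SimpleGraph W} {G : SimpleGraph V}
    (h1 : IsMinor M K) (h2 : IsMinor K G) : IsMinor M G := by
  obtain ⟨A, hA1, hA2, hA3⟩ := h1
  obtain ⟨B, hB1, hB2, hB3⟩ := h2
  refine ⟨fun u => ⋃ w ∈ A u, B w, ?_, ?_, ?_⟩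
  · intro u
    have hsub : ∀ w ∈ A u, B w ⊆ ⋃ w ∈ A u, B w := by
      intro w hw x hx
      exact Set.mem_biUnion hw hx
    have hin : ∀ (w : W) (hw : w ∈ A u) (x y : V) (hx : x ∈ B w) (hy : y ∈ B w),
        (G.induce (⋃ w ∈ A u, B w)).Reachable ⟨x, hsub w hw hx⟩ ⟨y, hsub w hw hy⟩ := by
      intro w hw x y hx hy
      have := (hB1 w).preconnected ⟨x, hx⟩ ⟨y, hy⟩
      exact this.map (induceHomOfLE G (hsub w hw)).toHom
    have key : ∀ (w w' : A u) (p : (K.induce (A u)).Walk w w') (x y : V) (hx : x ∈ B w.1)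
        (hy : y ∈ B w'.1),
        (G.induce (⋃ w ∈ A u, B w)).Reachable ⟨x, hsub w.1 w.2 hx⟩ ⟨y, hsub w'.1 w'.2 hy⟩ := by
      intro w w' p
      induction p with
      | @nil w1 =>
        intro x y hx hy
        exact hin w1.1 w1.2 x y hx hy
      | @cons w1 w2 w3 h p ih =>
        intro x y hx hy
        obtain ⟨x1, hx1, y1, hy1, hadj⟩ := hB3 w1.1 w2.1 h
        have r1 := hin w1.1 w1.2 x x1 hx hx1
        have r2 : (G.induce (⋃ w ∈ A u, B w)).Adj ⟨x1, hsub w1.1 w1.2 hx1⟩
            ⟨y1, hsub w2.1 w2.2 hy1⟩ := hadj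
        have r3 := ih y1 y hy1 hy
        exact r1.trans (r2.reachable.trans r3)
    obtain ⟨⟨w0, hw0⟩⟩ := (hA1 u).nonempty
    obtain ⟨⟨x0, hx0⟩⟩ := (hB1 w0).nonempty
    have : Nonempty (⋃ w ∈ A u, B w : Set V) := ⟨⟨x0, hsub w0 hw0 hx0⟩⟩
    refine Connected.mk ?_
    rintro ⟨x, hx⟩ ⟨y, hy⟩
    have hx' := hx
    have hy' := hy
    rw [Set.mem_iUnion₂] at hx' hy'
    obtain ⟨w, hw, hxw⟩ := hx'
    obtain ⟨w', hw', hyw⟩ := hy'
    obtain ⟨p⟩ := (hA1 u).preconnected ⟨w, hw⟩ ⟨w', hw'⟩
    exact key _ _ p x y hxw hyw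
  · intro u u' huu'
    rw [Set.disjoint_left]
    intro z hz hz'
    rw [Set.mem_iUnion₂] at hz hz'
    obtain ⟨w, hw, hzw⟩ := hz
    obtain ⟨w', hw', hzw'⟩ := hz'
    have hww : w ≠ w' := by
      intro e
      exact Set.disjoint_left.1 (hA2 u u' huu') hw (e ▸ hw')
    exact Set.disjoint_left.1 (hB2 w w' hww) hzw hzw'
  · intro u u' huu'
    obtain ⟨w, hw, w', hw', hadj⟩ := hA3 u u' huu'
    obtain ⟨x, hx, y, hy, h⟩ := hB3 w w' hadj
    exact ⟨x, Set.mem_biUnion hw hx, y, Set.mem_biUnion hw' hy, h⟩

end final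

end Red76
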