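import Mathlib
import Pool.Agent.H76.Red76

set_option autoImplicit false

namespace Core76

open SimpleGraph Finset Red76 Classical

variable {V : Type} (G : SimpleGraph V) (X : Finset V)

/-- `v` is at distance at most `j` from `X` -/
def near : ℕ → V → Prop
  | 0, v => v ∈ X
  | j + 1, v => near j v ∨ ∃ u, G.Adj v u ∧ near j u

lemma near_succ {j : ℕ} {v : V} (h : near G X j v) : near G X (j + 1) v := Or.inl h

lemma near_mono {i j : ℕ} (hij : i ≤ j) {v : V} (h : near G X i v) : near G X j v := by
  induction hij with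
  | refl => exact h
  | step _ ih => exact near_succ G X ih

/-- parent -/
noncomputable def par (v : V) : V :=
  if h : ∃ u, ∃ j, G.Adj v u ∧ near G X j u ∧ ¬ near G X j v then h.choose else v

lemma par_of_mem {v : V} (h : v ∈ X) : par G X v = v := by
  unfold par
  rw [dif_neg]
  rintro ⟨u, j, h1, h2, h3⟩
  exact h3 (near_mono G X (Nat.zero_le j) h)

lemma par_spec {v : V} {j : ℕ} (h1 : near G X (j + 1) v) (h2 : ¬ near G X j v) :
    G.Adj v (par G X v) ∧ near G X j (par G X v) := by
  have h : ∃ u, ∃ j, G.Adj v u ∧ near G X j u ∧ ¬ near G X j v := by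
    rcases h1 with h1 | ⟨u, hu1, hu2⟩
    · exact absurd h1 h2
    · exact ⟨u, j, hu1, hu2, h2⟩
  unfold par
  rw [dif_pos h]
  obtain ⟨j', h3, h4, h5⟩ := h.choose_spec
  refine ⟨h3, ?_⟩
  have h6 : near G X (j' + 1) v := Or.inr ⟨_, h3, h4⟩
  have h7 : j' ≤ j := by
    by_contra hcon
    exact h5 (near_mono G X (by omega : j + 1 ≤ j') h1)
  exact near_mono G X h7 h4

lemma par_adj {v : V} (h : par G X v ≠ v) : G.Adj v (par G X v) := by
  unfold par at h ⊢
  split_ifs at h ⊢ with h1
  · obtain ⟨j', h3, h4, h5⟩ := h1.choose_spec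
    exact h3
  · exact absurd rfl h

lemma exists_level {k : ℕ} {v : V} (h : near G X k v) (hv : v ∉ X) :
    ∃ j, j < k ∧ near G X (j + 1) v ∧ ¬ near G X j v := by
  induction k with
  | zero => exact absurd h hv
  | succ k ih =>
    by_cases h' : near G X k v
    · obtain ⟨j, hj, h2⟩ := ih h'
      exact ⟨j, by omega, h2⟩
    · exact ⟨k, by omega, h, h'⟩

lemma near_par {k : ℕ} {v : V} (h : near G X k v) : near G X k (par G X v) := by
  by_cases hv : v ∈ X
  · rw [par_of_mem G X hv]; exact h
  · obtain ⟨j, hj, h1, h2⟩ := exists_level G X h hv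
    exact near_mono G X hj.le (par_spec G X h1 h2).2

lemma iter_mem : ∀ {j : ℕ} {v : V}, near G X j v → (par G X)^[j] v ∈ X := by
  intro j
  induction j with
  | zero => intro v h; exact h
  | succ j ih =>
    intro v h
    by_cases h' : near G X j v
    · rw [Function.iterate_succ_apply', par_of_mem G X (ih h')]
      exact ih h'
    · rw [Function.iterate_succ_apply]
      exact ih (par_spec G X h h').2

/-- root -/
noncomputable def rt (k : ℕ) (v : V) : V := (par G X)^[k] v

lemma rt_mem {k : ℕ} {v : V} (h : near G X k v) : rt G X k v ∈ X := iter_mem G X h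

lemma rt_par {k : ℕ} {v : V} (h : near G X k v) : rt G X k (par G X v) = rt G X k v := by
  unfold rt
  rw [← Function.iterate_succ_apply, Function.iterate_succ_apply', par_of_mem G X (iter_mem G X h)]

lemma rt_self {k : ℕ} {v : V} (h : v ∈ X) : rt G X k v = v := by
  unfold rt
  induction k with
  | zero => rfl
  | succ k ih => rw [Function.iterate_succ_apply, par_of_mem G X h, ih]

/-- parent edges -/
def PE (e : Sym2 V) : Prop := ∃ u, par G X u ≠ u ∧ e = s(u, par G X u)

lemma walk_rt : ∀ (j : ℕ) (v : V), ∃ w : G.Walk v ((par G X)^[j] v), w.length ≤ j ∧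
    ∀ e ∈ w.edges, PE G X e := by
  intro j
  induction j with
  | zero => intro v; exact ⟨Walk.nil, by simp, by simp⟩
  | succ j ih =>
    intro v
    by_cases h : par G X v = v
    · obtain ⟨w, h1, h2⟩ := ih v
      have e : (par G X)^[j + 1] v = (par G X)^[j] v := by
        rw [Function.iterate_succ_apply, h]
      rw [e]
      exact ⟨w, by omega, h2⟩
    · obtain ⟨w, h1, h2⟩ := ih (par G X v)
      rw [Function.iterate_succ_apply]
      refine ⟨Walk.cons (par_adj G X h) w, by simp [h1], ?_⟩
      intro e he
      rw [Walk.edges_cons, List.mem_cons] at he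
      rcases he with he | he
      · exact ⟨v, h, he⟩
      · exact h2 e he

lemma walk_same {k : ℕ} {u v : V} (h : rt G X k u = rt G X k v) :
    ∃ w : G.Walk u v, w.length ≤ 2 * k ∧ ∀ e ∈ w.edges, PE G X e := by
  unfold rt at h
  obtain ⟨w1, a1, b1⟩ := walk_rt G X k u
  obtain ⟨w2, a2, b2⟩ := walk_rt G X k v
  refine ⟨w1.append ((w2.copy rfl h.symm).reverse), ?_, ?_⟩
  · rw [Walk.length_append, Walk.length_reverse, Walk.length_copy]
    omega
  · intro e he
    rw [Walk.edges_append, List.mem_append] at he
    rcases he with he | he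
    · exact b1 e he
    · rw [Walk.edges_reverse, List.mem_reverse, Walk.edges_copy] at he
      exact b2 e he

/-- every cycle has length at least `g` -/
def LongCyc {V : Type} (G : SimpleGraph V) (g : ℕ) : Prop :=
  ∀ a b, G.Adj a b → ∀ w : G.Walk a b, s(a, b) ∉ w.edges → g ≤ w.length + 1

lemma key1 {k g : ℕ} (hg : 4 * k + 3 ≤ g) (hL : LongCyc G g) {u v : V} (hadj : G.Adj u v)
    (hp : ¬ PE G X s(u, v)) : rt G X k u ≠ rt G X k v := by
  intro h
  obtain ⟨w, h1, h2⟩ := walk_same G X h
  have := hL u v hadj w (fun he => hp (h2 _ he))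
  omega

lemma key2 {k g : ℕ} (hg : 4 * k + 3 ≤ g) (hL : LongCyc G g) {u v u' v' : V}
    (hadj : G.Adj u v) (hp : ¬ PE G X s(u, v)) (hadj' : G.Adj u' v')
    (h1 : rt G X k u = rt G X k u') (h2 : rt G X k v = rt G X k v') : s(u, v) = s(u', v') := by
  by_contra hne
  obtain ⟨w1, a1, b1⟩ := walk_same G X h1
  obtain ⟨w2, a2, b2⟩ := walk_same G X h2.symm
  have := hL u v hadj (w1.append (Walk.cons hadj' w2)) (by
    intro he
    rw [Walk.edges_append, List.mem_append, Walk.edges_cons, List.mem_cons] at he
    rcases he with he | he | he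
    · exact hp (b1 _ he)
    · exact hne he
    · exact hp (b2 _ he))
  rw [Walk.length_append, Walk.length_cons] at this
  omega

/-- the graph of the cells -/
def cellGraph (k : ℕ) : SimpleGraph {x : V // x ∈ X} where
  Adj x y := x ≠ y ∧ ∃ u v, near G X k u ∧ near G X k v ∧ G.Adj u v ∧
    rt G X k u = x.1 ∧ rt G X k v = y.1
  symm := by
    constructor
    rintro x y ⟨h, u, v, h1, h2, h3, h4, h5⟩
    exact ⟨h.symm, v, u, h2, h1, h3.symm, h5, h4⟩
  loopless := by
    constructor
    intro x h
    exact h.1 rfl

lemma cell_minor (k : ℕ) : IsMinor (cellGraph G X k) G := by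
  refine ⟨fun x => {v | near G X k v ∧ rt G X k v = x.1}, ?_, ?_, ?_⟩
  · intro x
    have hx : x.1 ∈ ({v | near G X k v ∧ rt G X k v = x.1} : Set V) :=
      ⟨near_mono G X (Nat.zero_le k) x.2, rt_self G X x.2⟩
    have key : ∀ (j : ℕ) (v : V) (hv : v ∈ ({v | near G X k v ∧ rt G X k v = x.1} : Set V)),
        near G X j v →
        (G.induce {v | near G X k v ∧ rt G X k v = x.1}).Reachable ⟨v, hv⟩ ⟨x.1, hx⟩ := by
      intro j
      induction j with
      | zero =>
        intro v hv hj
        have : v = x.1 := by
          rw [← hv.2, rt_self G X hj]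
        subst this
        exact Reachable.refl _
      | succ j ih =>
        intro v hv hj
        by_cases hj' : near G X j v
        · exact ih v hv hj'
        · have hs := par_spec G X hj hj'
          have hpv : par G X v ∈ ({v | near G X k v ∧ rt G X k v = x.1} : Set V) :=
            ⟨near_par G X hv.1, by rw [rt_par G X hv.1]; exact hv.2⟩
          have h1 := ih (par G X v) hpv hs.2
          have h2 : (G.induce {v | near G X k v ∧ rt G X k v = x.1}).Adj ⟨v, hv⟩
              ⟨par G X v, hpv⟩ := hs.1
          exact h2.reachable.trans h1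
    have : Nonempty ({v | near G X k v ∧ rt G X k v = x.1} : Set V) := ⟨⟨x.1, hx⟩⟩
    refine Connected.mk ?_
    rintro ⟨u, hu⟩ ⟨v, hv⟩
    exact (key k u hu hu.1).trans (key k v hv hv.1).symm
  · intro x y hxy
    rw [Set.disjoint_left]
    intro z hz hz'
    exact hxy (Subtype.ext (hz.2.symm.trans hz'.2))
  · rintro x y ⟨h, u, v, h1, h2, h3, h4, h5⟩
    exact ⟨u, ⟨h1, h4⟩, v, ⟨h2, h5⟩, h3⟩

theorem cell_edges [Fintype V] {k g : ℕ} (hg : 4 * k + 3 ≤ g) (hL : LongCyc G g) :
    G.edgeFinset.card + X.card ≤ Nat.card (cellGraph G X k).edgeSet +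
      ∑ v ∈ univ.filter (fun v => ¬ near G X k v), G.degree v +
      (univ.filter (fun v => near G X k v)).card := by
  set EC := G.edgeFinset.filter (fun e => ∀ v ∈ e, near G X k v) with hEC
  have s1 : G.edgeFinset.card ≤ EC.card +
      ∑ v ∈ univ.filter (fun v => ¬ near G X k v), G.degree v := by
    have : G.edgeFinset ⊆ EC ∪ (univ.filter (fun v => ¬ near G X k v)).biUnion
        (fun v => G.incidenceFinset v) := by
      intro e he
      rw [Finset.mem_union]
      by_cases h : ∀ v ∈ e, near G X k v
      · left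
        rw [hEC, Finset.mem_filter]
        exact ⟨he, h⟩
      · right
        push Not at h
        obtain ⟨v, hv1, hv2⟩ := h
        rw [Finset.mem_biUnion]
        refine ⟨v, by simp [hv2], ?_⟩
        rw [mem_incidenceFinset]
        exact ⟨by simpa using he, hv1⟩
    refine (Finset.card_le_card this).trans ((Finset.card_union_le _ _).trans ?_)
    refine Nat.add_le_add_left (Finset.card_biUnion_le.trans (le_of_eq ?_)) _
    refine Finset.sum_congr rfl (fun v _ => ?_)
    exact G.card_incidenceFinset_eq_degree v
  have s2 : EC.card = (EC.filter (PE G X)).card + (EC.filter (fun e => ¬ PE G X e)).card :=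
    (Finset.card_filter_add_card_filter_not _).symm
  have s3 : (EC.filter (PE G X)).card + X.card ≤ (univ.filter (fun v => near G X k v)).card := by
    have h1 : EC.filter (PE G X) ⊆ ((univ.filter (fun v => near G X k v)) \ X).image
        (fun v => s(v, par G X v)) := by
      intro e he
      rw [Finset.mem_filter, hEC, Finset.mem_filter] at he
      obtain ⟨⟨he1, he2⟩, u, hu1, hu2⟩ := he
      rw [Finset.mem_image]
      refine ⟨u, ?_, hu2.symm⟩
      rw [Finset.mem_sdiff, Finset.mem_filter]
      refine ⟨⟨Finset.mem_univ _, he2 u (by rw [hu2]; simp)⟩, ?_⟩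
      intro hX
      exact hu1 (par_of_mem G X hX)
    have h2 := (Finset.card_le_card h1).trans Finset.card_image_le
    have h3 : X ⊆ univ.filter (fun v => near G X k v) := by
      intro x hx
      rw [Finset.mem_filter]
      exact ⟨Finset.mem_univ _, near_mono G X (Nat.zero_le k) hx⟩
    have h4 := Finset.card_sdiff_add_card_eq_card h3
    omega
  have s4 : (EC.filter (fun e => ¬ PE G X e)).card ≤ Nat.card (cellGraph G X k).edgeSet := by
    have hm : ∀ e : {e // e ∈ EC.filter (fun e => ¬ PE G X e)},
        ∃ m : (cellGraph G X k).edgeSet, Sym2.map (fun x : {x : V // x ∈ X} => x.1) m.1 =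
          Sym2.map (rt G X k) e.1 := by
      rintro ⟨e, he⟩
      rw [Finset.mem_filter, hEC, Finset.mem_filter] at he
      induction e using Sym2.ind with
      | _ u v =>
        obtain ⟨⟨he1, he2⟩, he3⟩ := he
        have hadj : G.Adj u v := by simpa using he1
        have hu : near G X k u := he2 u (by simp)
        have hv : near G X k v := he2 v (by simp)
        refine ⟨⟨s(⟨rt G X k u, rt_mem G X hu⟩, ⟨rt G X k v, rt_mem G X hv⟩), ?_⟩, ?_⟩
        · rw [mem_edgeSet]
          refine ⟨?_, u, v, hu, hv, hadj, rfl, rfl⟩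
          intro h
          exact key1 G X hg hL hadj he3 (congrArg Subtype.val h)
        · simp
    choose m hm using hm
    have hinj : Function.Injective m := by
      rintro ⟨e, he⟩ ⟨e', he'⟩ h
      have h1 := hm ⟨e, he⟩
      have h2 := hm ⟨e', he'⟩
      rw [h, h2] at h1
      simp only at h1
      rw [Finset.mem_filter, hEC, Finset.mem_filter] at he he'
      refine Subtype.ext ?_
      simp only
      clear h2 h
      induction e using Sym2.ind with
      | _ u v =>
        induction e' using Sym2.ind with
        | _ u' v' =>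
          obtain ⟨⟨he1, he2⟩, he3⟩ := he
          obtain ⟨⟨he1', he2'⟩, he3'⟩ := he'
          have hadj : G.Adj u v := by simpa using he1
          have hadj' : G.Adj u' v' := by simpa using he1'
          rw [Sym2.map_mk, Sym2.map_mk, Sym2.eq_iff] at h1
          rcases h1 with h1 | h1
          · exact key2 G X hg hL hadj he3 hadj' h1.1.symm h1.2.symm
          · rw [Sym2.eq_swap (a := u')]
            exact key2 G X hg hL hadj he3 hadj'.symm h1.2.symm h1.1.symm
    have h0 : Nat.card {e // e ∈ EC.filter (fun e => ¬ PE G X e)} =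
        (EC.filter (fun e => ¬ PE G X e)).card := by
      rw [Nat.card_eq_fintype_card, Fintype.card_coe]
    have := Nat.card_le_card_of_injective m hinj
    rw [h0] at this
    exact this
  omega

end Core76
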