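import Mathlib
import Pool.Agent.H76.Red76
import Pool.Agent.H76.Vor76

set_option autoImplicit false

namespace Core76

open SimpleGraph Finset Red76 Classical

variable {V : Type} (G : SimpleGraph V)

lemma near_of_walk (X : Finset V) : ∀ (j : ℕ) (v x : V) (_ : x ∈ X) (w : G.Walk v x),
    w.length ≤ j → near G X j v := by
  intro j
  induction j with
  | zero =>
    intro v x hx w hw
    have : v = x := Walk.eq_of_length_eq_zero (p := w) (by omega)
    rw [this]
    exact hx
  | succ j ih =>
    intro v x hx w hw
    cases w with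
    | nil => exact near_mono G X (Nat.zero_le _) hx
    | cons h p =>
      rw [Walk.length_cons] at hw
      exact Or.inr ⟨_, h, ih _ x hx p (by omega)⟩

lemma walk_of_near (X : Finset V) : ∀ (j : ℕ) (v : V), near G X j v →
    ∃ x ∈ X, ∃ w : G.Walk v x, w.length ≤ j := by
  intro j
  induction j with
  | zero => intro v h; exact ⟨v, h, Walk.nil, by simp⟩
  | succ j ih =>
    intro v h
    rcases h with h | ⟨u, hu, h⟩
    · obtain ⟨x, hx, w, hw⟩ := ih v h
      exact ⟨x, hx, w, by omega⟩
    · obtain ⟨x, hx, w, hw⟩ := ih u h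
      exact ⟨x, hx, Walk.cons hu w, by simp [hw]⟩

/-- ball -/
noncomputable def ball [Fintype V] (v : V) (j : ℕ) : Finset V :=
  univ.filter (fun u => near G {v} j u)

lemma near_of_ball [Fintype V] (X : Finset V) (k : ℕ) (v u : V) (hu : u ∈ ball G v k)
    (hx : u ∈ X) : near G X k v := by
  unfold ball at hu
  rw [Finset.mem_filter] at hu
  obtain ⟨x, hx', w, hw⟩ := walk_of_near G {v} k u hu.2
  rw [Finset.mem_singleton] at hx'
  subst hx'
  exact near_of_walk G X k x u hx w.reverse (by simpa using hw)

lemma ball_step [Fintype V] (v : V) (j g : ℕ) (hg : 4 * (j + 1) + 3 ≤ g) (hL : LongCyc G g)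
    (hdeg : ∀ u, 3 ≤ G.degree u) : 2 * (ball G v j).card + 2 ≤ (ball G v (j + 1)).card := by
  set B := ball G v (j + 1) with hB
  set B' := ball G v j with hB'
  have hvB : v ∈ B := by
    rw [hB]; unfold ball
    simp only [Finset.mem_filter, Finset.mem_univ, true_and]
    exact near_mono G {v} (Nat.zero_le _) (by simp [near])
  have hsub : B' ⊆ B := by
    intro u hu
    rw [hB', ball, Finset.mem_filter] at hu
    rw [hB, ball, Finset.mem_filter]
    exact ⟨Finset.mem_univ _, near_succ G {v} hu.2⟩
  set D := (B ×ˢ B).filter (fun p => G.Adj p.1 p.2) with hD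
  have hup : D ⊆ (B.erase v).image (fun u => (u, par G {v} u)) ∪
      (B.erase v).image (fun u => (par G {v} u, u)) := by
    rintro ⟨u, w⟩ hp
    rw [hD, Finset.mem_filter, Finset.mem_product] at hp
    obtain ⟨⟨hu, hw⟩, hadj⟩ := hp
    simp only at hu hw hadj
    have hu' : near G {v} (j + 1) u := by
      rw [hB, ball, Finset.mem_filter] at hu; exact hu.2
    have hw' : near G {v} (j + 1) w := by
      rw [hB, ball, Finset.mem_filter] at hw; exact hw.2
    have hPE : PE G {v} s(u, w) := by
      by_contra hcon
      have h1 := key1 G {v} hg hL hadj hcon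
      have h2 := rt_mem G {v} hu'
      have h3 := rt_mem G {v} hw'
      rw [Finset.mem_singleton] at h2 h3
      exact h1 (h2.trans h3.symm)
    obtain ⟨x, hx1, hx2⟩ := hPE
    have hxv : x ≠ v := by
      intro e
      exact hx1 (par_of_mem G {v} (by simp [e]))
    rw [Finset.mem_union, Finset.mem_image, Finset.mem_image]
    rw [Sym2.eq_iff] at hx2
    rcases hx2 with hx2 | hx2
    · left
      refine ⟨x, Finset.mem_erase.2 ⟨hxv, hx2.1 ▸ hu⟩, ?_⟩
      rw [hx2.1, hx2.2]
    · right
      refine ⟨x, Finset.mem_erase.2 ⟨hxv, hx2.2 ▸ hw⟩, ?_⟩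
      rw [hx2.1, hx2.2]
  have hupc : D.card ≤ 2 * (B.card - 1) := by
    refine (Finset.card_le_card hup).trans ((Finset.card_union_le _ _).trans ?_)
    have h1 : ((B.erase v).image (fun u => (u, par G {v} u))).card ≤ B.card - 1 := by
      refine Finset.card_image_le.trans ?_
      rw [Finset.card_erase_of_mem hvB]
    have h2 : ((B.erase v).image (fun u => (par G {v} u, u))).card ≤ B.card - 1 := by
      refine Finset.card_image_le.trans ?_
      rw [Finset.card_erase_of_mem hvB]
    omega
  have hDs : D.card = ∑ u ∈ B, (B.filter (fun w => G.Adj u w)).card := by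
    rw [hD, Finset.card_filter, Finset.sum_product]
    refine Finset.sum_congr rfl (fun u _ => ?_)
    rw [Finset.card_filter]
  have hlow : 3 * B'.card + (B.card - B'.card) ≤ D.card := by
    rw [hDs, ← Finset.sum_sdiff hsub]
    have h1 : ∑ u ∈ B', 3 ≤ ∑ u ∈ B', (B.filter (fun w => G.Adj u w)).card := by
      refine Finset.sum_le_sum (fun u hu => ?_)
      refine (hdeg u).trans ?_
      rw [← card_neighborFinset_eq_degree]
      refine Finset.card_le_card ?_
      intro w hw
      rw [mem_neighborFinset] at hw
      rw [Finset.mem_filter]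
      refine ⟨?_, hw⟩
      rw [hB', ball, Finset.mem_filter] at hu
      rw [hB, ball, Finset.mem_filter]
      exact ⟨Finset.mem_univ _, Or.inr ⟨u, hw.symm, hu.2⟩⟩
    have h2 : ∑ u ∈ B \ B', 1 ≤ ∑ u ∈ B \ B', (B.filter (fun w => G.Adj u w)).card := by
      refine Finset.sum_le_sum (fun u hu => ?_)
      rw [Finset.mem_sdiff] at hu
      have hu1 : near G {v} (j + 1) u := by
        have := hu.1
        rw [hB, ball, Finset.mem_filter] at this; exact this.2
      have hu2 : ¬ near G {v} j u := by
        intro h
        apply hu.2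
        rw [hB', ball, Finset.mem_filter]
        exact ⟨Finset.mem_univ _, h⟩
      have hs := par_spec G {v} hu1 hu2
      rw [Nat.succ_le_iff, Finset.card_pos]
      refine ⟨par G {v} u, ?_⟩
      rw [Finset.mem_filter]
      refine ⟨?_, hs.1⟩
      rw [hB, ball, Finset.mem_filter]
      exact ⟨Finset.mem_univ _, near_succ G {v} hs.2⟩
    rw [Finset.sum_const, smul_eq_mul] at h1 h2
    rw [Finset.card_sdiff_of_subset hsub] at h2
    omega
  have hBpos : 1 ≤ B.card := Finset.card_pos.2 ⟨v, hvB⟩
  have := Finset.card_le_card hsub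
  omega

lemma ball_card [Fintype V] (v : V) (k g : ℕ) (hg : 4 * k + 3 ≤ g) (hL : LongCyc G g)
    (hdeg : ∀ u, 3 ≤ G.degree u) : 3 * 2 ^ k ≤ (ball G v k).card + 2 := by
  induction k with
  | zero =>
    have h0 : v ∈ ball G v 0 := by
      unfold ball
      simp [near]
    have h1 : 0 < (ball G v 0).card := Finset.card_pos.2 ⟨v, h0⟩
    rw [pow_zero]
    omega
  | succ k ih =>
    have h1 := ih (by omega)
    have h2 := ball_step G v k g hg hL hdeg
    rw [pow_succ]
    omega

/-- number of functions without zero on a set -/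
lemma count_nozero [Fintype V] (N : ℕ) (B : Finset V) :
    ((univ : Finset (V → Fin (N + 1))).filter (fun f => ∀ u ∈ B, f u ≠ 0)).card =
      N ^ B.card * (N + 1) ^ (Fintype.card V - B.card) := by
  have h1 : (univ : Finset (V → Fin (N + 1))).filter (fun f => ∀ u ∈ B, f u ≠ 0) =
      Fintype.piFinset (fun u => if u ∈ B then (univ : Finset (Fin (N + 1))).erase 0 else univ) := by
    ext f
    rw [Finset.mem_filter, Fintype.mem_piFinset]
    constructor
    · rintro ⟨_, h⟩ u
      by_cases hu : u ∈ B
      · simp [hu, h u hu]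
      · simp [hu]
    · intro h
      refine ⟨Finset.mem_univ _, fun u hu => ?_⟩
      have := h u
      simp [hu] at this
      exact this
  rw [h1, Fintype.card_piFinset]
  have h2 : ∀ u : V, (if u ∈ B then (univ : Finset (Fin (N + 1))).erase 0 else univ).card =
      if u ∈ B then N else N + 1 := by
    intro u
    by_cases hu : u ∈ B
    · simp [hu]
    · simp [hu]
  rw [Finset.prod_congr rfl (fun u _ => h2 u), Finset.prod_ite, Finset.prod_const,
    Finset.prod_const]
  congr 2
  · congr 1
    ext u; simp
  · have : (univ : Finset V).filter (fun u => u ∉ B) = univ \ B := by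
      ext u; simp
    rw [this, Finset.card_sdiff_of_subset (Finset.subset_univ _), Finset.card_univ]

end Core76
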