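import Mathlib
import Pool.Agent.H76.Red76
import Pool.Agent.H76.Vor76
import Pool.Agent.H76.Ball76

set_option autoImplicit false

namespace Core76

open SimpleGraph Finset Red76 Classical

lemma exp_bound (k : ℕ) : (1 - 1 / (2 : ℝ) ^ k) ^ (3 * 2 ^ k - 2) ≤ 1 / 16 := by
  rcases Nat.lt_or_ge k 4 with hk | hk
  · interval_cases k <;> norm_num
  · have hM : (16 : ℝ) ≤ 2 ^ k := by
      calc (16 : ℝ) = 2 ^ 4 := by norm_num
        _ ≤ 2 ^ k := pow_le_pow_right₀ (by norm_num) hk
    have hMpos : (0 : ℝ) < 2 ^ k := by positivity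
    have h1 : (1 - 1 / (2 : ℝ) ^ k) ≤ Real.exp (-(1 / (2 : ℝ) ^ k)) := by
      have := Real.add_one_le_exp (-(1 / (2 : ℝ) ^ k))
      linarith
    have h0 : (0 : ℝ) ≤ 1 - 1 / (2 : ℝ) ^ k := by
      rw [sub_nonneg, div_le_one hMpos]
      linarith
    have h2 : (1 - 1 / (2 : ℝ) ^ k) ^ (3 * 2 ^ k - 2) ≤
        Real.exp (-(1 / (2 : ℝ) ^ k)) ^ (3 * 2 ^ k - 2) := pow_le_pow_left₀ h0 h1 _
    refine h2.trans ?_
    rw [← Real.exp_nat_mul]
    have h3 : (((3 * 2 ^ k - 2 : ℕ) : ℝ)) = 3 * 2 ^ k - 2 := by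
      have : 2 ≤ 3 * 2 ^ k := by
        have := Nat.one_le_two_pow (n := k)
        omega
      push_cast [Nat.cast_sub this]
      ring
    rw [h3]
    have h4 : (3 * (2 : ℝ) ^ k - 2) * -(1 / 2 ^ k) ≤ -(Real.log 16) := by
      have e1 : (3 * (2 : ℝ) ^ k - 2) * -(1 / 2 ^ k) = -3 + 2 / 2 ^ k := by
        field_simp
        ring
      have e2 : (2 : ℝ) / 2 ^ k ≤ 1 / 8 := by
        rw [div_le_div_iff₀ hMpos (by norm_num)]
        linarith
      have e3 : Real.log 16 = 4 * Real.log 2 := by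
        rw [show (16 : ℝ) = 2 ^ 4 by norm_num, Real.log_pow]
        norm_num
      have e4 := Real.log_two_lt_d9
      rw [e1, e3]
      linarith
    refine (Real.exp_le_exp.2 h4).trans ?_
    rw [Real.exp_neg, Real.exp_log (by norm_num)]
    norm_num

variable {V : Type} [Fintype V] (G : SimpleGraph V)

theorem core [Nonempty V] (k g : ℕ) (hg : 4 * k + 3 ≤ g) (hL : LongCyc G g)
    (hdeg : ∀ u, 3 ≤ G.degree u) (d : ℝ) (hd : 4 * (d - 2) < 3 * 2 ^ k)
    (hmin : ∀ X : Finset V, 2 * (Nat.card (cellGraph G X k).edgeSet : ℝ) ≤ d * X.card) :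
    False := by
  obtain ⟨N, hN⟩ : ∃ N : ℕ, 2 ^ k = N + 1 := ⟨2 ^ k - 1, by
    have := Nat.one_le_two_pow (n := k)
    omega⟩
  set n := Fintype.card V with hn
  have hnpos : 0 < n := Fintype.card_pos
  let X : (V → Fin (N + 1)) → Finset V := fun f => univ.filter (fun u => f u = 0)
  let U : (V → Fin (N + 1)) → Finset V := fun f => univ.filter (fun v => ¬ near G (X f) k v)
  -- inequality for each f
  have hf : ∀ f : V → Fin (N + 1), ∑ v, ((G.degree v : ℝ) - 2) ≤
      (d - 2) * (X f).card + ∑ v ∈ U f, 2 * ((G.degree v : ℝ) - 1) := by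
    intro f
    have h1 := cell_edges G (X f) hg hL
    have h2 := hmin (X f)
    have h3 : (univ.filter (fun v => near G (X f) k v)).card + (U f).card = n := by
      rw [hn, ← Finset.card_univ]
      exact Finset.card_filter_add_card_filter_not _
    have h4 := G.sum_degrees_eq_twice_card_edges
    have h1' : (G.edgeFinset.card : ℝ) + (X f).card ≤
        (Nat.card (cellGraph G (X f) k).edgeSet : ℝ) + ∑ v ∈ U f, (G.degree v : ℝ) +
        ((univ.filter (fun v => near G (X f) k v)).card : ℝ) := by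
      exact_mod_cast h1
    have h3' : ((univ.filter (fun v => near G (X f) k v)).card : ℝ) + ((U f).card : ℝ) = n := by
      exact_mod_cast h3
    have h4' : ∑ v, (G.degree v : ℝ) = 2 * (G.edgeFinset.card : ℝ) := by
      exact_mod_cast h4
    have e1 : ∑ v, ((G.degree v : ℝ) - 2) = ∑ v, (G.degree v : ℝ) - 2 * n := by
      rw [Finset.sum_sub_distrib, Finset.sum_const, Finset.card_univ, nsmul_eq_mul]
      ring
    have e2 : ∑ v ∈ U f, 2 * ((G.degree v : ℝ) - 1) =
        2 * ∑ v ∈ U f, (G.degree v : ℝ) - 2 * (U f).card := by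
      rw [← Finset.mul_sum, Finset.sum_sub_distrib, Finset.sum_const, nsmul_eq_mul]
      ring
    rw [e1, e2]
    linarith
  have hsum := Finset.sum_le_sum (fun f (_ : f ∈ (univ : Finset (V → Fin (N + 1)))) => hf f)
  rw [Finset.sum_const, Finset.card_univ, Fintype.card_fun, Fintype.card_fin, ← hn,
    nsmul_eq_mul, Finset.sum_add_distrib, ← Finset.mul_sum] at hsum
  -- sum of |X f|
  have hcard : (univ : Finset (V → Fin (N + 1))).card = (N + 1) ^ n := by
    rw [Finset.card_univ, Fintype.card_fun, Fintype.card_fin]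
  have hX : ∑ f : V → Fin (N + 1), ((X f).card : ℝ) = n * (N + 1 : ℝ) ^ (n - 1) := by
    have h1 : ∀ f : V → Fin (N + 1), ((X f).card : ℝ) = ∑ v : V, if f v = 0 then (1 : ℝ) else 0 := by
      intro f
      simp only [X]
      rw [Finset.card_filter]
      push_cast
      rfl
    rw [Finset.sum_congr rfl (fun f _ => h1 f), Finset.sum_comm]
    have h2 : ∀ v : V, ∑ f : V → Fin (N + 1), (if f v = 0 then (1 : ℝ) else 0) =
        (N + 1 : ℝ) ^ (n - 1) := by
      intro v
      rw [← Finset.sum_filter, Finset.sum_const, nsmul_eq_mul, mul_one]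
      have h3 := count_nozero (V := V) N {v}
      have h4 : ((univ : Finset (V → Fin (N + 1))).filter (fun f => f v = 0)).card +
          ((univ : Finset (V → Fin (N + 1))).filter (fun f => ¬ f v = 0)).card =
          (N + 1) ^ n := by
        rw [← hcard]
        exact Finset.card_filter_add_card_filter_not _
      have h5 : ((univ : Finset (V → Fin (N + 1))).filter (fun f => ¬ f v = 0)).card =
          N * (N + 1) ^ (n - 1) := by
        have : (univ : Finset (V → Fin (N + 1))).filter (fun f => ¬ f v = 0) =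
            univ.filter (fun f => ∀ u ∈ ({v} : Finset V), f u ≠ 0) := by
          ext f; simp
        rw [this, h3]
        simp [hn]
      have h6 : (N + 1) ^ n = (N + 1) * (N + 1) ^ (n - 1) := by
        conv_lhs => rw [show n = (n - 1) + 1 by omega]
        rw [pow_succ]; ring
      have h7 : ((univ : Finset (V → Fin (N + 1))).filter (fun f => f v = 0)).card =
          (N + 1) ^ (n - 1) := by
        rw [h5, h6] at h4
        nlinarith
      rw [h7]
      push_cast
      ring
    rw [Finset.sum_congr rfl (fun v _ => h2 v), Finset.sum_const, Finset.card_univ, nsmul_eq_mul]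
  -- the uncovered vertices
  have hM : ((2 : ℝ) ^ k) = (N : ℝ) + 1 := by exact_mod_cast hN
  have hcv : ∀ v : V, (((univ : Finset (V → Fin (N + 1))).filter
      (fun f => ¬ near G (X f) k v)).card : ℝ) ≤ (N + 1 : ℝ) ^ n / 16 := by
    intro v
    set b := (ball G v k).card with hb
    have hb1 := ball_card G v k g hg hL hdeg
    have hbn : b ≤ n := by
      rw [hb, hn, ← Finset.card_univ]
      exact Finset.card_le_card (Finset.subset_univ _)
    have h1 : ((univ : Finset (V → Fin (N + 1))).filter (fun f => ¬ near G (X f) k v)).card ≤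
        N ^ b * (N + 1) ^ (n - b) := by
      rw [hb, hn, ← count_nozero N (ball G v k)]
      refine Finset.card_le_card ?_
      intro f hf
      rw [Finset.mem_filter] at hf ⊢
      refine ⟨Finset.mem_univ _, fun u hu h0 => ?_⟩
      exact hf.2 (near_of_ball G (X f) k v u hu (by simp [X, h0]))
    have h2 : ((N : ℝ) / (N + 1)) ^ b ≤ 1 / 16 := by
      have e1 : (N : ℝ) / (N + 1) = 1 - 1 / (2 : ℝ) ^ k := by
        rw [hM]
        field_simp
        ring
      have h01 : (0 : ℝ) ≤ (N : ℝ) / (N + 1) := by positivity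
      have h02 : (N : ℝ) / (N + 1) ≤ 1 := by
        rw [div_le_one (by positivity)]
        linarith
      have h3 : ((N : ℝ) / (N + 1)) ^ b ≤ ((N : ℝ) / (N + 1)) ^ (3 * 2 ^ k - 2) :=
        pow_le_pow_of_le_one h01 h02 (by omega)
      refine h3.trans ?_
      rw [e1]
      exact exp_bound k
    have h3 : ((N ^ b * (N + 1) ^ (n - b) : ℕ) : ℝ) = ((N : ℝ) / (N + 1)) ^ b * (N + 1 : ℝ) ^ n := by
      have : (N + 1 : ℝ) ^ n = (N + 1 : ℝ) ^ b * (N + 1 : ℝ) ^ (n - b) := by
        rw [← pow_add]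
        congr 1
        omega
      rw [this, div_pow]
      push_cast
      field_simp
    have h4 : (((univ : Finset (V → Fin (N + 1))).filter
        (fun f => ¬ near G (X f) k v)).card : ℝ) ≤ ((N ^ b * (N + 1) ^ (n - b) : ℕ) : ℝ) := by
      exact_mod_cast h1
    rw [h3] at h4
    have h5 : (0 : ℝ) < (N + 1 : ℝ) ^ n := by positivity
    nlinarith
  have hU : ∑ f : V → Fin (N + 1), ∑ v ∈ U f, 2 * ((G.degree v : ℝ) - 1) ≤
      ∑ v, 2 * ((G.degree v : ℝ) - 1) * ((N + 1 : ℝ) ^ n / 16) := by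
    have h1 : ∀ f : V → Fin (N + 1), ∑ v ∈ U f, 2 * ((G.degree v : ℝ) - 1) =
        ∑ v, if ¬ near G (X f) k v then 2 * ((G.degree v : ℝ) - 1) else 0 := by
      intro f
      simp only [U]
      rw [Finset.sum_filter]
    rw [Finset.sum_congr rfl (fun f _ => h1 f), Finset.sum_comm]
    refine Finset.sum_le_sum (fun v _ => ?_)
    rw [← Finset.sum_filter, Finset.sum_const, nsmul_eq_mul, mul_comm]
    have h2 : (3 : ℝ) ≤ G.degree v := by exact_mod_cast hdeg v
    exact mul_le_mul_of_nonneg_left (hcv v) (by linarith)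
  rw [hX] at hsum
  have h10 := hsum.trans (add_le_add_right hU _)
  rw [← Finset.sum_mul] at h10
  have h11 : (N + 1 : ℝ) ^ n = (N + 1) * (N + 1 : ℝ) ^ (n - 1) := by
    conv_lhs => rw [show n = (n - 1) + 1 by omega]
    rw [pow_succ]; ring
  have hA : (3 : ℝ) / 4 * n ≤ ∑ v, ((G.degree v : ℝ) - 2) - (∑ v, 2 * ((G.degree v : ℝ) - 1)) / 16 := by
    rw [Finset.sum_div, ← Finset.sum_sub_distrib]
    have : (3 : ℝ) / 4 * n = ∑ v : V, (3 : ℝ) / 4 := by
      rw [Finset.sum_const, Finset.card_univ, nsmul_eq_mul, ← hn]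
      ring
    rw [this]
    refine Finset.sum_le_sum (fun v _ => ?_)
    have h2 : (3 : ℝ) ≤ G.degree v := by exact_mod_cast hdeg v
    linarith
  have hP : (0 : ℝ) < (N + 1 : ℝ) ^ (n - 1) := by positivity
  have hn' : (0 : ℝ) < n := by exact_mod_cast hnpos
  push_cast at h10
  rw [h11] at h10
  set S1 := ∑ v, ((G.degree v : ℝ) - 2)
  set S2 := ∑ v, 2 * ((G.degree v : ℝ) - 1)
  rw [hM] at hd
  -- (N+1) P S1 ≤ (d-2) n P + S2 (N+1) P / 16
  have h12 : (N + 1 : ℝ) * S1 ≤ (d - 2) * n + S2 * (N + 1) / 16 := by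
    have : ((N + 1 : ℝ) * S1) * (N + 1 : ℝ) ^ (n - 1) ≤
        ((d - 2) * n + S2 * (N + 1) / 16) * (N + 1 : ℝ) ^ (n - 1) := by
      nlinarith
    exact le_of_mul_le_mul_right this hP
  have h13 : (0 : ℝ) < N + 1 := by positivity
  have h14 : (N + 1 : ℝ) * ((3 : ℝ) / 4 * n) ≤ (N + 1 : ℝ) * (S1 - S2 / 16) :=
    mul_le_mul_of_nonneg_left hA h13.le
  nlinarith

end Core76
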