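import Mathlib
import Pool.Agent.H76.Red76

set_option autoImplicit false

namespace Red76

open SimpleGraph

/-- every cycle has length at least `g` -/
def LongCyc {V : Type} (G : SimpleGraph V) (g : ℕ) : Prop :=
  ∀ a b, G.Adj a b → ∀ w : G.Walk a b, s(a, b) ∉ w.edges → g ≤ w.length + 1

lemma walk_out {V : Type} {G : SimpleGraph V} {s : Set V} {a b : s}
    (w : (G.induce s).Walk a b) : ∃ w' : G.Walk a.1 b.1, w'.length = w.length ∧
      ∀ x y : s, s(x.1, y.1) ∈ w'.edges → s(x, y) ∈ w.edges := by
  induction w with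
  | nil => exact ⟨Walk.nil, rfl, fun x y h => by simp at h⟩
  | @cons u v t h p ih =>
    obtain ⟨q, hq1, hq2⟩ := ih
    refine ⟨Walk.cons (show G.Adj u.1 v.1 from h) q, by simp [hq1], ?_⟩
    intro x y hx
    rw [Walk.edges_cons, List.mem_cons] at hx ⊢
    rcases hx with hx | hx
    · left
      rw [Sym2.eq_iff] at hx ⊢
      rcases hx with hx | hx
      · exact Or.inl ⟨Subtype.ext hx.1, Subtype.ext hx.2⟩
      · exact Or.inr ⟨Subtype.ext hx.1, Subtype.ext hx.2⟩
    · exact Or.inr (hq2 _ _ hx)

lemma LongCyc.induce {V : Type} {G : SimpleGraph V} {g : ℕ} (h : LongCyc G g) (s : Set V) :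
    LongCyc (G.induce s) g := by
  intro a b hab w hw
  obtain ⟨w', h1, h2⟩ := walk_out w
  have := h a.1 b.1 hab w' (fun he => hw (h2 a b he))
  omega

lemma induce_minor {V : Type} (G : SimpleGraph V) (s : Set V) : IsMinor (G.induce s) G := by
  refine ⟨fun x => {x.1}, ?_, ?_, ?_⟩
  · intro x
    have : Subsingleton (({x.1} : Set V) : Type) := by
      constructor
      rintro ⟨p, hp⟩ ⟨q, hq⟩
      rw [Set.mem_singleton_iff] at hp hq
      exact Subtype.ext (hp.trans hq.symm)
    have : Nonempty (({x.1} : Set V) : Type) := ⟨⟨x.1, rfl⟩⟩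
    exact Connected.mk (Preconnected.of_subsingleton)
  · intro x y hxy
    rw [Set.disjoint_singleton]
    exact fun h => hxy (Subtype.ext h)
  · intro x y h
    exact ⟨x.1, rfl, y.1, rfl, h⟩

theorem top (p : ℕ) (hp : 2 ≤ p) (C : ∀ {V : Type}, SimpleGraph V → Prop)
    (hC : ∀ {V W : Type} (G : SimpleGraph V) (K : SimpleGraph W), C G → IsMinor K G → C K)
    (g : ℕ) (hg : 3 * (p - 1) < g)
    (hcore : ∀ (W : Type) [Finite W] (K : SimpleGraph W), Nonempty W → C K →
      (∀ w, 3 ≤ dg K w) → (∀ a b, K.Adj a b → ∀ w : K.Walk a b, s(a, b) ∉ w.edges →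
        g ≤ (w.length + 1) * (p - 1)) → False) :
    ∀ (n : ℕ) (V : Type) [Finite V] (G : SimpleGraph V), Nat.card V = n → C G → LongCyc G g →
      PathDeg p G := by
  intro n
  induction n using Nat.strong_induction_on with
  | _ n ih =>
    intro V _ G hn hG hL
    classical
    have := Fintype.ofFinite V
    have hcard : ∀ s : Set V, (∃ x, x ∉ s) → Nat.card s < n := by
      intro s hs
      obtain ⟨x, hx⟩ := hs
      rw [← hn, Nat.card_eq_fintype_card, Nat.card_eq_fintype_card]
      exact Fintype.card_subtype_lt hx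
    have hind : ∀ s : Set V, (∃ x, x ∉ s) → PathDeg p (G.induce s) := fun s hs =>
      ih _ (hcard s hs) s (G.induce s) rfl (hC _ _ hG (induce_minor G s)) (hL.induce s)
    by_cases hV : IsEmpty V
    · exact PathDeg.empty G hV
    rw [not_isEmpty_iff] at hV
    by_cases h1 : ∃ v, dg G v < 2
    · obtain ⟨v, hv⟩ := h1
      have hv' : dg G v = 0 ∨ dg G v = 1 := by omega
      rcases hv' with hv' | hv'
      · refine PathDeg.isolated G v ?_ (hind _ ⟨v, by simp⟩)
        intro y hy
        unfold dg at hv'
        rw [Nat.card_eq_zero] at hv'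
        rcases hv' with hv' | hv'
        · exact hv'.false ⟨y, hy⟩
        · exact hv'.not_finite inferInstance
      · refine PathDeg.pendant G v ?_ (hind _ ⟨v, by simp⟩)
        unfold dg at hv'
        rw [Nat.card_eq_one_iff_exists] at hv'
        obtain ⟨⟨y, hy⟩, hy'⟩ := hv'
        exact ⟨y, hy, fun z hz => congrArg Subtype.val (hy' ⟨z, hz⟩)⟩
    push Not at h1
    by_cases h2 : ∃ (a b : V) (w : G.Walk a b), w.IsPath ∧ w.length = p ∧
        ∀ x ∈ w.support, x ≠ a → x ≠ b → dg G x = 2
    · obtain ⟨a, b, w, hw1, hw2, hw3⟩ := h2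
      have hab : a ≠ b := by
        intro e
        subst e
        have h0 : w = Walk.nil := by
          rw [← Walk.isPath_iff_eq_nil]
          exact hw1
        rw [h0] at hw2
        simp at hw2
        omega
      refine PathDeg.path G a b w hab hw1 hw2 hw3 (hind _ ?_)
      -- an internal vertex
      refine ⟨w.getVert 1, ?_⟩
      simp only [Set.mem_ofPred_eq, Classical.not_imp, not_or]
      refine ⟨Walk.getVert_mem_support w 1, ?_, ?_⟩
      · intro e
        have h5 : w.getVert 1 = w.getVert 0 := by rw [e, Walk.getVert_zero]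
        have h6 := hw1.getVert_injOn (by simp; omega) (by simp) h5
        omega
      · intro e
        have h5 : w.getVert 1 = w.getVert w.length := by rw [e, Walk.getVert_length]
        have h6 := hw1.getVert_injOn (by simp; omega) (by simp) h5
        omega
    · exfalso
      push Not at h2
      have hI : Inv G (fun _ _ => 1) g (p - 1) := by
        refine inv_base G p g (by omega) h1 ?_ hL
        intro a b w hw1 hw2 hw3
        obtain ⟨x, hx1, hx2, hx3, hx4⟩ := h2 a b w hw1 hw2
        exact hx4 (hw3 x hx1 hx2 hx3)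
      obtain ⟨W, _, K, hW, hCK, hdeg, hcyc⟩ := reduce C hC g (p - 1) hg _ V G _ rfl hV hG hI
      exact hcore W K hW hCK hdeg hcyc

end Red76
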